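import Pool.Agent.H.MP_9d59e9_gt.B

namespace Pool.Agent.Results.MP_9d59e9_gt.No

abbrev V (n : ℕ) := Fin n → ℝ

abbrev Met (n : ℕ) := V n → Matrix (Fin n) (Fin n) ℝ

abbrev Ten (n k : ℕ) := V n → Fin n → (Fin k → Fin n) → ℝ

noncomputable def pd {n : ℕ} (i : Fin n) (f : V n → ℝ) (x : V n) : ℝ :=
  fderiv ℝ f x (Pi.single i 1)

noncomputable def chr {n : ℕ} (g : Met n) (x : V n) (a i j : Fin n) : ℝ :=
  ∑ l, (g x)⁻¹ a l *
    (pd i (fun z => g z j l) x + pd j (fun z => g z i l) x - pd l (fun z => g z i j) x) / 2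

noncomputable def riem {n : ℕ} (g : Met n) : Ten n 3 := fun x a I =>
  pd (I 1) (fun z => chr g z a (I 2) (I 0)) x - pd (I 2) (fun z => chr g z a (I 1) (I 0)) x
    + ∑ l, (chr g x a (I 1) l * chr g x l (I 2) (I 0) - chr g x a (I 2) l * chr g x l (I 1) (I 0))

noncomputable def cov {n k : ℕ} (g : Met n) (T : Ten n k) : Ten n (k + 1) := fun x a I =>
  pd (I 0) (fun z => T z a (Fin.tail I)) x + ∑ l, chr g x a (I 0) l * T x l (Fin.tail I)
    - ∑ s, ∑ l, chr g x l (I 0) (Fin.tail I s) * T x a (Function.update (Fin.tail I) s l)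

theorem result : ∃ (g : Met 4) (t : V 4 → Fin 4 → ℝ),
    (∀ i j, ContDiff ℝ (⊤ : ℕ∞) (fun x => g x i j)) ∧ (∀ x, (g x).PosDef) ∧
    (∀ i, ContDiff ℝ (⊤ : ℕ∞) (fun x => t x i)) ∧
    (∀ x a (I : Fin 6 → Fin 4), cov g (cov g (cov g (riem g))) x a I
      + t x (I 0) * cov g (cov g (riem g)) x a (Fin.tail I) = 0) ∧
    (∀ x, (Matrix.of fun b d => -∑ a, riem g x a ![b, a, d]).PosDef) ∧
    ∀ x, ¬ ∃ σ : Fin 4 → ℝ, ∀ a (I : Fin 4 → Fin 4),
      cov g (riem g) x a I = σ (I 0) * riem g x a (Fin.tail I) :=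
  Pool.Agent.H.MP_9d59e9_gt.main

end Pool.Agent.Results.MP_9d59e9_gt.No
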